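import Pool.Agent.W819.TF.Lower
import Pool.Agent.W819.TF.Upper

set_option autoImplicit false
open MeasureTheory

namespace Pool.Agent.Results.MP_f7be6d_mp.WeakNucleus

open Pool.Agent.W819.TF
open Pool.Agent.Helper67.Conv (Space Config pos Wave Antisymmetric normSq)

/-- For one electron and one nucleus of charge `0 < z ≤ 1/8` at any point, both energies are genuine
infima, `E^Q ≤ -z²/4` and `E^TF ≥ -(497/1000) z^(7/3) > -z²/4`, so that `E^Q < E^TF`: the Thomas-Fermi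
energy is not a lower bound for the quantum ground state energy. -/
theorem result (z : ℝ) (hz : 0 < z) (hz8 : z ≤ 1 / 8) (R : Fin 1 → Space) :
    (quantumEnergies 1 (fun _ => z) R).Nonempty ∧
      BddBelow (quantumEnergies 1 (fun _ => z) R) ∧
      (thomasFermiEnergies 1 (fun _ => z) R).Nonempty ∧
      BddBelow (thomasFermiEnergies 1 (fun _ => z) R) ∧
      quantumEnergy 1 (fun _ => z) R ≤ -(z ^ 2 / 4) ∧
      -(497 / 1000 * z ^ (7 / 3 : ℝ)) ≤ thomasFermiEnergy 1 (fun _ => z) R ∧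
      quantumEnergy 1 (fun _ => z) R < thomasFermiEnergy 1 (fun _ => z) R := by
  -- trial energies
  have htrial : ∀ ε : ℝ, 0 < ε → ∃ e ∈ quantumEnergies 1 (fun _ => z) R,
      e ≤ -(z ^ 2 / 4) + ε := by
    intro ε hε
    have hε' : 0 < 2 * ε / z ^ 2 := by positivity
    obtain ⟨ψ, hn, he⟩ := hydrogen_trial ((z / 2) • R 0) hε'
    obtain ⟨φ, ha, hφ, hq⟩ := scaled_form hz R ψ hn
    refine ⟨_, ⟨φ, ha, hφ, hq⟩, ?_⟩
    have h1 : z ^ 2 / 2 * Pool.Agent.Helper67.Conv.energy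
        (Pool.Agent.Helper67.Conv.one 1) (fun _ => (z / 2) • R 0) ψ ≤
        z ^ 2 / 2 * (-(1 / 2) + 2 * ε / z ^ 2) := mul_le_mul_of_nonneg_left he (by positivity)
    refine h1.trans (le_of_eq ?_)
    field_simp
    ring
  have hQne : (quantumEnergies 1 (fun _ => z) R).Nonempty := by
    obtain ⟨e, he, _⟩ := htrial 1 one_pos
    exact ⟨e, he⟩
  have hQb : BddBelow (quantumEnergies 1 (fun _ => z) R) := by
    obtain ⟨C, hC⟩ := form_lower hz.le (by linarith) R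
    refine ⟨-C, ?_⟩
    rintro e ⟨ψ, _, hn, rfl⟩
    have := hC ψ
    rw [hn, mul_one] at this
    exact this
  have hQ : quantumEnergy 1 (fun _ => z) R ≤ -(z ^ 2 / 4) := by
    refine le_of_forall_pos_le_add fun ε hε => ?_
    obtain ⟨e, he, hle⟩ := htrial ε hε
    exact (csInf_le hQb he).trans hle
  have hTlow : ∀ e ∈ thomasFermiEnergies 1 (fun _ => z) R, -(497 / 1000 * z ^ (7 / 3 : ℝ)) ≤ e := by
    rintro e ⟨ρ, ⟨h1, h2, h3, _⟩, rfl⟩
    exact tf_lower hz R ⟨h1, h2, h3⟩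
  have hTne : (thomasFermiEnergies 1 (fun _ => z) R).Nonempty := by
    refine ⟨_, (fun _ => 0), ⟨fun _ => le_rfl, by simp, ?_, by simp⟩, rfl⟩
    have : (fun _ : Space => (0 : ℝ) ^ (5 / 3 : ℝ)) = fun _ => 0 := by
      funext x
      exact Real.zero_rpow (by norm_num)
    rw [this]
    simp
  have hT : -(497 / 1000 * z ^ (7 / 3 : ℝ)) ≤ thomasFermiEnergy 1 (fun _ => z) R :=
    le_csInf hTne hTlow
  refine ⟨hQne, hQb, hTne, ⟨_, hTlow⟩, hQ, hT, lt_of_le_of_lt hQ (lt_of_lt_of_le ?_ hT)⟩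
  -- the numerical comparison
  have h13 : z ^ (1 / 3 : ℝ) ≤ 1 / 2 := by
    have h1 : z ^ (1 / 3 : ℝ) ≤ (1 / 8 : ℝ) ^ (1 / 3 : ℝ) :=
      Real.rpow_le_rpow hz.le hz8 (by norm_num)
    have h2 : (1 / 8 : ℝ) ^ (1 / 3 : ℝ) = 1 / 2 := by
      have : (1 / 8 : ℝ) = (1 / 2) ^ (3 : ℝ) := by
        rw [show (3 : ℝ) = ((3 : ℕ) : ℝ) by norm_num, Real.rpow_natCast]
        norm_num
      rw [this, ← Real.rpow_mul (by norm_num)]
      norm_num
    rw [h2] at h1
    exact h1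
  have h73 : z ^ (7 / 3 : ℝ) = z ^ 2 * z ^ (1 / 3 : ℝ) := by
    rw [← Real.rpow_natCast, ← Real.rpow_add hz]
    norm_num
  rw [h73]
  have hz2 : 0 < z ^ 2 := by positivity
  nlinarith [mul_le_mul_of_nonneg_left h13 hz2.le]

end Pool.Agent.Results.MP_f7be6d_mp.WeakNucleus
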